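import Pool.Agent.Work.MP_33c50c_an.H54.ResC

set_option autoImplicit false

open MeasureTheory Set Real Pool.Agent.Work.MP_33c50c_an.H54

namespace Pool.Agent.Results.MP_33c50c_an.PlaneEquivalence

/-- There is `c > 0` such that (1) for every `k` and `m` the inequality `m / |W| ≤ lambda_k(W)`
for all bounded planar domains `W` is equivalent to `m / |Om| ≤ lambda_k(Om)` for all bounded
domains `Om` of the cylinder with `k |Om| ≤ c`; (2) in particular Polya's conjecture in the plane
is equivalent to Polya's inequality on the cylinder for all `Om`, `k` with `k |Om| ≤ c`;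
(3) Polya's inequality for all domains of the cylinder of area at most `A` is equivalent to
Polya's conjecture in the plane together with the inequality for `k |Om| > c`; (4) Polya's
conjecture in the plane is equivalent to Polya's inequality up to the factor
`1 - C (|Om| / k) ^ (1 / 3)` for all bounded domains of the cylinder and all `k`. -/
theorem result : ∃ c : ℝ, 0 < c ∧
    (∀ k : ℕ, 0 < k → ∀ m : ℝ,
      ((∀ W : Set (ℝ × ℝ), PlaneDomain W → m / (volume W).toReal ≤ evP W k) ↔
        ∀ Om : Set Cyl, CylDomain Om → (volume Om).toReal * k ≤ c →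
          m / (volume Om).toReal ≤ ev Om k)) ∧
    (PolyaPlane ↔ ∀ Om : Set Cyl, CylDomain Om → ∀ k : ℕ, 0 < k →
      (volume Om).toReal * k ≤ c → 4 * π * k / (volume Om).toReal ≤ ev Om k) ∧
    (∀ A : ℝ, 0 < A → ((∀ Om : Set Cyl, CylDomain Om → (volume Om).toReal ≤ A →
        ∀ k : ℕ, 0 < k → 4 * π * k / (volume Om).toReal ≤ ev Om k) ↔
      PolyaPlane ∧ ∀ Om : Set Cyl, CylDomain Om → (volume Om).toReal ≤ A →
        ∀ k : ℕ, 0 < k → c < (volume Om).toReal * k →
          4 * π * k / (volume Om).toReal ≤ ev Om k)) ∧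
    (PolyaPlane ↔ ∃ C : ℝ, 0 < C ∧ ∀ Om : Set Cyl, CylDomain Om → ∀ k : ℕ, 0 < k →
      (1 - C * ((volume Om).toReal / k) ^ (1 / 3 : ℝ)) * (4 * π * k / (volume Om).toReal) ≤
        ev Om k) :=
  main

end Pool.Agent.Results.MP_33c50c_an.PlaneEquivalence
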