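import Pool.Agent.Work.MP_33c50c_an.K3.Main

set_option autoImplicit false

open MeasureTheory Set Pool.Agent.Work.MP_33c50c_an

namespace Pool.Agent.Results.MP_33c50c_an.ThirdEigenvalue

/-- Polya's inequality for the third eigenvalue of all small open sets of the flat cylinder, with
a gain: `λ₃(Ω) ≥ 12.01 π / |Ω|`. -/
theorem result : ∀ Ω : Set Cyl, IsOpen Ω → volume Ω ≤ ENNReal.ofReal (1 / 10 ^ 9) →
    ENNReal.ofReal (1201 / 100 * Real.pi) / volume Ω ≤ eigenvalue Ω 3 :=
  Pool.Agent.Work.MP_33c50c_an.K3.main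

end Pool.Agent.Results.MP_33c50c_an.ThirdEigenvalue
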