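import Pool.Agent.Work.MP_33c50c_an.SH.Final

set_option autoImplicit false

open MeasureTheory Set Pool.Agent.Work.MP_33c50c_an

namespace Pool.Agent.Results.MP_33c50c_an.ThreeFifths

/-- Polya's inequality up to the factor `3/5`, for all small open sets of the flat cylinder:
`λ_k(Ω) ≥ (12π/5) k / |Ω|`. -/
theorem result : ∀ Ω : Set Cyl, IsOpen Ω → volume Ω ≤ ENNReal.ofReal (1 / 50000) →
    ∀ k : ℕ, 1 ≤ k → ENNReal.ofReal (12 * Real.pi / 5 * k) / volume Ω ≤ eigenvalue Ω k :=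
  fun Ω _ hvol k hk => Pool.Agent.Work.MP_33c50c_an.SH.main_small Ω hvol k hk

end Pool.Agent.Results.MP_33c50c_an.ThreeFifths
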