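import Pool.Agent.Work.MP_33c50c_an.Main

set_option autoImplicit false

open Pool.Agent.Work.MP_33c50c_an

namespace Pool.Agent.Results.MP_33c50c_an.TilersOfCylinder

/-- Polya's inequality holds for every open set that tiles the flat cylinder periodically with a
short (possibly skew) period. -/
theorem result :
    ∃ H₀ : ℝ, 0 < H₀ ∧ ∀ H : ℝ, 0 < H → H ≤ H₀ →
      ∀ (β : AddCircle (2 * Real.pi)) (Ω : Set Cyl), IsOpen Ω →
        ∀ (N : ℕ) (g : Fin N → Motion), Tiles β H N g Ω → SatisfiesPolya Ω :=
  Pool.Agent.Work.MP_33c50c_an.main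

end Pool.Agent.Results.MP_33c50c_an.TilersOfCylinder
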